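import Pool.Agent.Run7.h757.MW.Stm2
import Pool.Agent.H442R2.EHI.PntErr

/-!
# Project MW (helper757), piece REGP: the primes are regularly distributed (helper416)
-/

set_option autoImplicit false
set_option linter.all false

open Finset MeasureTheory Filter

namespace Pool.Agent.Run7.h416.MW

open Pool.Agent.Run7.h757.MW
open Pool.Agent.H442R2.EHI (lis pnt_err)

theorem err_bound {C x z : ℝ} (U : ℕ) (hx : 0 < Real.log x) (hz : Real.log x / 2 ≤ Real.log z) (hz2 : z ≤ 2 * x)
    (hz0 : 0 ≤ z) : C * z / Real.log z ^ U ≤ |C| * (2 * x) * 2 ^ U / Real.log x ^ U := by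
  have h1 : (Real.log x / 2) ^ U ≤ Real.log z ^ U := pow_le_pow_left₀ (by positivity) hz U
  have h2 : 0 < (Real.log x / 2) ^ U := by positivity
  have h3 : C * z ≤ |C| * (2 * x) := by
    calc C * z ≤ |C| * z := mul_le_mul_of_nonneg_right (le_abs_self _) hz0
      _ ≤ _ := mul_le_mul_of_nonneg_left hz2 (abs_nonneg _)
  have hx0 : 0 ≤ |C| * (2 * x) := by
    have : 0 ≤ 2 * x := hz0.trans hz2
    positivity
  calc C * z / Real.log z ^ U ≤ |C| * (2 * x) / Real.log z ^ U := div_le_div_of_nonneg_right h3 (h2.le.trans h1)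
    _ ≤ |C| * (2 * x) / (Real.log x / 2) ^ U := div_le_div_of_nonneg_left hx0 h2 h1
    _ = _ := by rw [div_pow, div_div_eq_mul_div]

theorem regp : S_REGP := by
  intro B
  obtain ⟨V, hV⟩ := exists_nat_ge B
  obtain ⟨C, hC⟩ := pnt_err (V + 2)
  have E1 : ∀ᶠ x : ℝ in atTop, ‖Real.log x ^ V‖ ≤ (1 / 8) * ‖x‖ :=
    (Real.isLittleO_pow_log_id_atTop (n := V)).bound (by norm_num)
  have E2 : ∀ᶠ x : ℝ in atTop, max 1 (max (8 * Real.log 2) (16 * |C| * 2 ^ (V + 2))) ≤ Real.log x :=
    Real.tendsto_log_atTop.eventually_ge_atTop _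
  have E3 : ∀ᶠ x : ℝ in atTop, 16 ≤ x := eventually_ge_atTop 16
  obtain ⟨x₀, hx₀⟩ := eventually_atTop.1 (E1.and (E2.and E3))
  refine ⟨x₀, fun x y hx hxy hyx => ?_⟩
  obtain ⟨h1, h2, h3⟩ := hx₀ x hx
  have hL1 : 1 ≤ Real.log x := (le_max_left _ _).trans h2
  have hL2 : 8 * Real.log 2 ≤ Real.log x := ((le_max_left _ _).trans (le_max_right _ _)).trans h2
  have hL3 : 16 * |C| * 2 ^ (V + 2) ≤ Real.log x := ((le_max_right _ _).trans (le_max_right _ _)).trans h2
  have hL0 : 0 < Real.log x := by linarith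
  have hx0 : 0 < x := by linarith
  have hlog2 : 0 < Real.log 2 := Real.log_pos (by norm_num)
  rw [Real.norm_of_nonneg (by positivity), Real.norm_of_nonneg hx0.le] at h1
  have hBV : Real.log x ^ B ≤ Real.log x ^ V := by
    rw [← Real.rpow_natCast]
    exact Real.rpow_le_rpow_of_exponent_le hL1 hV
  have hB0 : 0 < Real.log x ^ B := Real.rpow_pos_of_pos hL0 _
  have hy8 : 8 ≤ y := by
    refine le_trans ?_ hxy
    rw [le_div_iff₀ hB0]
    linarith
  have hxV : x / Real.log x ^ (V + 2) ≤ y / Real.log x ^ 2 := by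
    rw [pow_add, ← div_div]
    refine div_le_div_of_nonneg_right ?_ (by positivity)
    refine le_trans ?_ hxy
    exact div_le_div_of_nonneg_left hx0.le hB0 hBV
  -- the end points
  obtain ⟨X1, hX1⟩ : ∃ X1 : ℕ, X1 = ⌊x⌋₊ := ⟨_, rfl⟩
  obtain ⟨X2, hX2⟩ : ∃ X2 : ℕ, X2 = ⌊x + y⌋₊ := ⟨_, rfl⟩
  have hX1a : (X1 : ℝ) ≤ x := by rw [hX1]; exact Nat.floor_le hx0.le
  have hX1b : x - 1 < X1 := by rw [hX1]; exact Nat.sub_one_lt_floor x
  have hX2a : (X2 : ℝ) ≤ x + y := by rw [hX2]; exact Nat.floor_le (by linarith)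
  have hX2b : x + y - 1 < X2 := by rw [hX2]; exact Nat.sub_one_lt_floor _
  have hX12 : X1 ≤ X2 := by
    have : (X1 : ℝ) < X2 := by linarith
    exact_mod_cast this.le
  have hX1c : 8 ≤ X1 := by
    have : (8 : ℝ) ≤ X1 := by linarith
    exact_mod_cast this
  have hlX1 : Real.log x / 2 ≤ Real.log X1 := by
    have h4 : Real.log (x / 2) ≤ Real.log X1 := Real.log_le_log (by positivity) (by linarith)
    rw [Real.log_div hx0.ne' (by norm_num)] at h4
    linarith
  have hlX2 : Real.log x / 2 ≤ Real.log X2 :=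
    hlX1.trans (Real.log_le_log (by exact_mod_cast (by omega : 0 < X1)) (by exact_mod_cast hX12))
  have e1 := err_bound (C := C) (V + 2) hL0 hlX1 (by linarith) (Nat.cast_nonneg _)
  have e2 := err_bound (C := C) (V + 2) hL0 hlX2 (by linarith) (Nat.cast_nonneg _)
  have p1 := hC X1 (by omega)
  have p2 := hC X2 (by omega)
  -- counting
  have hcount : (({p : ℕ | p.Prime} ∩ {n : ℕ | x < n ∧ (n : ℝ) ≤ x + y}).ncard : ℝ) =
      (((Icc 1 X2).filter (fun p : ℕ => p.Prime)).card : ℝ) - (((Icc 1 X1).filter (fun p : ℕ => p.Prime)).card : ℝ) := by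
    have hset : {p : ℕ | p.Prime} ∩ {n : ℕ | x < n ∧ (n : ℝ) ≤ x + y} =
        (((Ioc X1 X2).filter (fun p : ℕ => p.Prime) : Finset ℕ) : Set ℕ) := by
      ext n
      simp only [Set.mem_inter_iff, Set.mem_setOf_eq, Finset.coe_filter, Finset.mem_Ioc]
      rw [hX1, hX2, Nat.floor_lt hx0.le, Nat.le_floor_iff (by linarith)]
      tauto
    rw [hset, Set.ncard_coe_finset]
    have hsplit : (Icc 1 X2).filter (fun p : ℕ => p.Prime) =
        (Icc 1 X1).filter (fun p : ℕ => p.Prime) ∪ (Ioc X1 X2).filter (fun p : ℕ => p.Prime) := by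
      rw [← Finset.filter_union]
      congr 1
      ext n
      simp only [Finset.mem_union, Finset.mem_Icc, Finset.mem_Ioc]
      omega
    rw [hsplit, Finset.card_union_of_disjoint]
    · push_cast
      ring
    · rw [Finset.disjoint_left]
      intro n hn hn'
      simp only [Finset.mem_filter, Finset.mem_Icc, Finset.mem_Ioc] at hn hn'
      omega
  have hlis : (y - 1) / (Real.log x + Real.log 2) ≤ lis X2 - lis X1 := by
    have hsplit : Icc 2 X2 = Icc 2 X1 ∪ Ioc X1 X2 := by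
      ext n
      simp only [Finset.mem_union, Finset.mem_Icc, Finset.mem_Ioc]
      omega
    have hl : lis X2 - lis X1 = ∑ n ∈ Ioc X1 X2, 1 / Real.log n := by
      unfold lis
      rw [hsplit, Finset.sum_union]
      · ring
      · rw [Finset.disjoint_left]
        intro n hn hn'
        simp only [Finset.mem_Icc, Finset.mem_Ioc] at hn hn'
        omega
    rw [hl]
    have h4 : ∀ n ∈ Ioc X1 X2, 1 / (Real.log x + Real.log 2) ≤ 1 / Real.log n := by
      intro n hn
      rw [Finset.mem_Ioc] at hn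
      have hn1 : (1 : ℝ) < n := by exact_mod_cast (by omega : 1 < n)
      have hn2 : (n : ℝ) ≤ x * 2 := by
        have : (n : ℝ) ≤ X2 := by exact_mod_cast hn.2
        linarith
      refine one_div_le_one_div_of_le (Real.log_pos hn1) ?_
      rw [← Real.log_mul hx0.ne' (by norm_num)]
      exact Real.log_le_log (by linarith) hn2
    have h5 := Finset.sum_le_sum h4
    rw [Finset.sum_const, Nat.card_Ioc, nsmul_eq_mul, Nat.cast_sub hX12] at h5
    refine le_trans ?_ h5
    rw [mul_one_div]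
    exact div_le_div_of_nonneg_right (by linarith) (by positivity)
  rw [hcount]
  have hmain : (3 / 4 : ℝ) * (y / Real.log x) ≤ (y - 1) / (Real.log x + Real.log 2) := by
    rw [← mul_div_assoc, div_le_div_iff₀ hL0 (by positivity)]
    nlinarith
  have herr : |C| * (2 * x) * 2 ^ (V + 2) / Real.log x ^ (V + 2) + |C| * (2 * x) * 2 ^ (V + 2) / Real.log x ^ (V + 2) ≤
      (1 / 4 : ℝ) * (y / Real.log x) := by
    have h6 : |C| * (2 * x) * 2 ^ (V + 2) / Real.log x ^ (V + 2) + |C| * (2 * x) * 2 ^ (V + 2) / Real.log x ^ (V + 2) =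
        (4 * |C| * 2 ^ (V + 2)) * (x / Real.log x ^ (V + 2)) := by ring
    rw [h6]
    have h7 : (4 * |C| * 2 ^ (V + 2)) * (x / Real.log x ^ (V + 2)) ≤ (4 * |C| * 2 ^ (V + 2)) * (y / Real.log x ^ 2) :=
      mul_le_mul_of_nonneg_left hxV (by positivity)
    refine h7.trans ?_
    have h8 : (1 / 4 : ℝ) * (y / Real.log x) = (Real.log x / 4) * (y / Real.log x ^ 2) := by
      field_simp
    rw [h8]
    refine mul_le_mul_of_nonneg_right (by linarith) (by positivity)
  rw [Real.rpow_one]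
  have q1 := (abs_le.1 p1).2
  have q2 := (abs_le.1 p2).1
  have h9 : (1 / 2 : ℝ) * y / Real.log x = (3 / 4 : ℝ) * (y / Real.log x) - (1 / 4 : ℝ) * (y / Real.log x) := by ring
  rw [h9]
  linarith

end Pool.Agent.Run7.h416.MW
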