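import Pool.Agent.Run7.h757.MW.Stm

/-!
# Project MW (helper757), piece FL: Fourier expansion of the integer part (helper416)
-/

set_option autoImplicit false
set_option linter.all false

open Finset MeasureTheory Filter

namespace Pool.Agent.Run7.h416.MW

open Pool.Agent.Run7.h757.MW

theorem e_add (x y : ℝ) : e (x + y) = e x * e y := by
  unfold e
  rw [← Complex.exp_add]
  congr 1
  push_cast
  ring

theorem norm_e (x : ℝ) : ‖e x‖ = 1 := by
  unfold e
  have : (2 * Real.pi * x * Complex.I : ℂ) = ((2 * Real.pi * x : ℝ) : ℂ) * Complex.I := by push_cast; ring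
  rw [this, Complex.norm_exp_ofReal_mul_I]

theorem e_int (n : ℤ) : e (n : ℝ) = 1 := by
  unfold e
  have : (2 * Real.pi * ((n : ℝ) : ℂ) * Complex.I : ℂ) = (n : ℂ) * (2 * Real.pi * Complex.I) := by push_cast; ring
  rw [this, Complex.exp_int_mul_two_pi_mul_I]

theorem e_zero : e 0 = 1 := by
  have := e_int 0
  simpa using this

theorem continuous_e : Continuous e := by
  unfold e
  fun_prop

theorem int_e {b : ℝ} (hb : b ≠ 0) : ∫ v in (0 : ℝ)..1, e (b * v) = (e b - 1) / (2 * Real.pi * b * Complex.I) := by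
  have hc : (2 * Real.pi * b * Complex.I : ℂ) ≠ 0 := by
    have h1 : (Real.pi : ℂ) ≠ 0 := by exact_mod_cast Real.pi_ne_zero
    have h2 : (b : ℂ) ≠ 0 := by exact_mod_cast hb
    simp [h1, h2, Complex.I_ne_zero]
  have h := integral_exp_mul_complex (a := 0) (b := 1) hc
  rw [show (fun v : ℝ => e (b * v)) = fun v : ℝ => Complex.exp (2 * Real.pi * b * Complex.I * v) from ?_, h]
  · unfold e
    simp
  · funext v
    unfold e
    congr 1
    push_cast
    ring

theorem int_e_int (n : ℤ) : ∫ v in (0 : ℝ)..1, e (n * v) = if n = 0 then 1 else 0 := by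
  split_ifs with h
  · subst h
    simp [e_zero]
  · rw [int_e (by exact_mod_cast h), e_int]
    simp

/-- the Fourier coefficients -/
noncomputable def cf (a : ℝ) (h : ℤ) : ℂ := ∫ v in (0 : ℝ)..1, e (-(a + h) * v)

theorem cf_le_one (a : ℝ) (h : ℤ) : ‖cf a h‖ ≤ 1 := by
  unfold cf
  refine (intervalIntegral.norm_integral_le_of_norm_le_const (C := 1) fun v _ => ?_).trans (by norm_num)
  rw [norm_e]

theorem cf_le {a : ℝ} (ha : |a| ≤ 1 / 2) {h : ℤ} (hh : h ≠ 0) : ‖cf a h‖ ≤ 1 / |(h : ℝ)| := by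
  have h1 : (1 : ℝ) ≤ |(h : ℝ)| := by
    have := Int.one_le_abs hh
    exact_mod_cast this
  have h2 : |(h : ℝ)| / 2 ≤ |a + h| := by
    have h3 : |(h : ℝ)| ≤ |a + h| + |a| := by
      have h4 : (h : ℝ) = (a + h) - a := by ring
      calc |(h : ℝ)| = |(a + h) - a| := by rw [← h4]
        _ ≤ _ := abs_sub _ _
    linarith
  have hb : -(a + h) ≠ 0 := by
    intro h0
    have : a + (h : ℝ) = 0 := by linarith
    rw [this, abs_zero] at h2
    linarith
  unfold cf
  rw [int_e hb, norm_div]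
  have h5 : ‖(2 * Real.pi * ((-(a + h) : ℝ) : ℂ) * Complex.I : ℂ)‖ = 2 * Real.pi * |a + h| := by
    rw [norm_mul, norm_mul, norm_mul, Complex.norm_I, Complex.norm_real, Complex.norm_real, Real.norm_eq_abs,
      Real.norm_eq_abs, abs_neg, abs_of_pos Real.pi_pos]
    norm_num
  rw [h5]
  have h6 : ‖e (-(a + h)) - 1‖ ≤ 2 := by
    refine (norm_sub_le _ _).trans ?_
    rw [norm_e]
    norm_num
  have hpi := Real.pi_gt_three
  have h8 : 0 < |a + h| := by linarith
  have h9 : 0 < |(h : ℝ)| := by linarith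
  rw [div_le_div_iff₀ (by positivity) h9]
  have h7 : 2 * |(h : ℝ)| ≤ 1 * (2 * Real.pi * |a + h|) := by nlinarith [abs_nonneg (a + h)]
  exact (mul_le_mul_of_nonneg_right h6 (abs_nonneg _)).trans h7

/-- the error function in one period -/
noncomputable def er (a : ℝ) (Z : ℕ) (v : ℝ) : ℂ := e (-a * v) - ∑ h ∈ Icc (-(Z : ℤ)) Z, cf a h * e (h * v)

theorem continuous_er (a : ℝ) (Z : ℕ) : Continuous (er a Z) := by
  unfold er
  refine Continuous.sub (continuous_e.comp (by fun_prop)) ?_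
  refine continuous_finset_sum _ fun h _ => ?_
  exact continuous_const.mul (continuous_e.comp (by fun_prop))

theorem coeff_er (a : ℝ) (Z : ℕ) (n : ℤ) :
    fourierCoeffOn (zero_lt_one' ℝ) (er a Z) n = if n ∈ Icc (-(Z : ℤ)) Z then 0 else cf a n := by
  rw [fourierCoeffOn_eq_integral]
  have h1 : ∀ x : ℝ, fourier (-n) (x : AddCircle ((1 : ℝ) - 0)) • er a Z x =
      e (-(a + n) * x) - ∑ h ∈ Icc (-(Z : ℤ)) Z, cf a h * e (((h - n : ℤ) : ℝ) * x) := by
    intro x
    have h2 : fourier (-n) (x : AddCircle ((1 : ℝ) - 0)) = e (-n * x) := by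
      rw [fourier_coe_apply]
      unfold e
      congr 1
      push_cast
      ring
    rw [h2, smul_eq_mul]
    unfold er
    rw [mul_sub, ← e_add, Finset.mul_sum]
    congr 1
    · congr 1
      ring
    · refine Finset.sum_congr rfl fun h _ => ?_
      rw [mul_left_comm, ← e_add]
      congr 2
      push_cast
      ring
  simp only [h1]
  have hci : ∀ b : ℝ, IntervalIntegrable (fun x : ℝ => e (b * x)) volume 0 1 := fun b =>
    (continuous_e.comp (by fun_prop)).intervalIntegrable _ _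
  rw [intervalIntegral.integral_sub (hci _) ?_, intervalIntegral.integral_finset_sum]
  · simp only [intervalIntegral.integral_const_mul, int_e_int]
    have h3 : ∑ h ∈ Icc (-(Z : ℤ)) Z, cf a h * (if h - n = 0 then (1 : ℂ) else 0) =
        if n ∈ Icc (-(Z : ℤ)) Z then cf a n else 0 := by
      rw [← Finset.sum_ite_eq' (Icc (-(Z : ℤ)) Z) n (cf a)]
      refine Finset.sum_congr rfl fun h _ => ?_
      by_cases hh : h = n
      · rw [if_pos (by omega), if_pos hh, mul_one]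
      · rw [if_neg (by omega), if_neg hh, mul_zero]
    rw [h3]
    have h4 : ∫ x in (0 : ℝ)..1, e (-(a + n) * x) = cf a n := rfl
    rw [h4]
    split_ifs <;> simp
  · intro h _
    exact (hci _).const_mul _
  · exact (continuous_finset_sum _ fun h _ => continuous_const.mul
      (continuous_e.comp (by fun_prop))).intervalIntegrable _ _

/-- the tail of the sum of the inverse squares -/
theorem tail_sum (Z : ℕ) (hZ : 1 ≤ Z) (M : ℕ) (hM : Z ≤ M) :
    ∑ n ∈ Icc (-(M : ℤ)) M, (if n ∈ Icc (-(Z : ℤ)) Z then (0 : ℝ) else 1 / (n : ℝ) ^ 2) ≤ 2 / Z - 2 / M := by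
  induction M, hM using Nat.le_induction with
  | base =>
    rw [Finset.sum_eq_zero]
    · simp
    · intro n hn
      rw [if_pos hn]
  | succ M hM ih =>
    have h1 : Icc (-((M + 1 : ℕ) : ℤ)) ((M + 1 : ℕ) : ℤ) =
        insert (-((M + 1 : ℕ) : ℤ)) (insert ((M + 1 : ℕ) : ℤ) (Icc (-(M : ℤ)) M)) := by
      ext x
      simp only [mem_Icc, mem_insert]
      push_cast
      omega
    rw [h1, Finset.sum_insert, Finset.sum_insert]
    · have hM0 : (0 : ℝ) < M := by exact_mod_cast (by omega : 0 < M)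
      rw [if_neg, if_neg]
      · have h2 : (1 : ℝ) / ((-((M + 1 : ℕ) : ℤ) : ℤ) : ℝ) ^ 2 ≤ 1 / M - 1 / ((M + 1 : ℕ) : ℝ) := by
          have e1 : ((-((M + 1 : ℕ) : ℤ) : ℤ) : ℝ) ^ 2 = ((M : ℝ) + 1) ^ 2 := by push_cast; ring
          rw [e1]
          push_cast
          rw [div_sub_div _ _ (by positivity) (by positivity), div_le_div_iff₀ (by positivity) (by positivity)]
          nlinarith
        have h3 : (1 : ℝ) / ((((M + 1 : ℕ) : ℤ) : ℤ) : ℝ) ^ 2 ≤ 1 / M - 1 / ((M + 1 : ℕ) : ℝ) := by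
          push_cast
          rw [div_sub_div _ _ (by positivity) (by positivity), div_le_div_iff₀ (by positivity) (by positivity)]
          nlinarith
        have h4 : (2 : ℝ) / M = 2 * (1 / M) := by ring
        have h5 : (2 : ℝ) / ((M + 1 : ℕ) : ℝ) = 2 * (1 / ((M + 1 : ℕ) : ℝ)) := by ring
        rw [h4] at ih
        rw [h5]
        linarith
      · simp only [mem_Icc]
        push_cast
        omega
      · simp only [mem_Icc]
        push_cast
        omega
    · simp only [mem_Icc]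
      push_cast
      omega
    · simp only [mem_insert, mem_Icc]
      push_cast
      omega

theorem int_er {a : ℝ} (ha : |a| ≤ 1 / 2) {Z : ℕ} (hZ : 1 ≤ Z) :
    ∫ v in (0 : ℝ)..1, ‖er a Z v‖ ^ 2 ≤ 2 / Z := by
  have hL2 : MemLp (er a Z) 2 (volume.restrict (Set.Ioc (0 : ℝ) 1)) := by
    obtain ⟨K, hK⟩ := (isCompact_Icc (a := (0 : ℝ)) (b := 1)).exists_bound_of_continuousOn
      (f := er a Z) (continuous_er a Z).continuousOn
    refine MemLp.of_bound (continuous_er a Z).aestronglyMeasurable K ?_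
    exact ae_restrict_of_forall_mem measurableSet_Ioc fun x hx => hK x (Set.Ioc_subset_Icc_self hx)
  have h2 := hasSum_sq_fourierCoeffOn (zero_lt_one' ℝ) hL2
  rw [sub_zero, inv_one, one_smul] at h2
  refine hasSum_le_of_sum_le h2 fun s => ?_
  obtain ⟨M, hM⟩ : ∃ M : ℕ, Z ≤ M ∧ s ⊆ Icc (-(M : ℤ)) M := by
    refine ⟨max Z (s.sup Int.natAbs), le_max_left _ _, fun n hn => ?_⟩
    have h3 : n.natAbs ≤ s.sup Int.natAbs := Finset.le_sup (f := Int.natAbs) hn
    rw [mem_Icc]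
    have h4 : (s.sup Int.natAbs) ≤ max Z (s.sup Int.natAbs) := le_max_right _ _
    omega
  have hM0 : (0 : ℝ) ≤ 2 / M := by positivity
  have h5 : ∀ n : ℤ, ‖fourierCoeffOn (zero_lt_one' ℝ) (er a Z) n‖ ^ 2 ≤
      (if n ∈ Icc (-(Z : ℤ)) Z then (0 : ℝ) else 1 / (n : ℝ) ^ 2) := by
    intro n
    rw [coeff_er]
    split_ifs with hn
    · simp
    · have hn0 : n ≠ 0 := by
        rintro rfl
        apply hn
        simp
      have h6 := cf_le ha hn0
      calc ‖cf a n‖ ^ 2 ≤ (1 / |(n : ℝ)|) ^ 2 := pow_le_pow_left₀ (norm_nonneg _) h6 2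
        _ = 1 / (n : ℝ) ^ 2 := by rw [div_pow, sq_abs, one_pow]
  calc ∑ n ∈ s, ‖fourierCoeffOn (zero_lt_one' ℝ) (er a Z) n‖ ^ 2
      ≤ ∑ n ∈ s, (if n ∈ Icc (-(Z : ℤ)) Z then (0 : ℝ) else 1 / (n : ℝ) ^ 2) := Finset.sum_le_sum fun n _ => h5 n
    _ ≤ ∑ n ∈ Icc (-(M : ℤ)) M, (if n ∈ Icc (-(Z : ℤ)) Z then (0 : ℝ) else 1 / (n : ℝ) ^ 2) :=
        Finset.sum_le_sum_of_subset_of_nonneg hM.2 fun n _ _ => by split_ifs <;> positivity
    _ ≤ 2 / Z - 2 / M := tail_sum Z hZ M hM.1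
    _ ≤ 2 / Z := by linarith

/-- the periodic function -/
theorem er_eq (a : ℝ) (Z : ℕ) {x : ℝ} (hx : 0 ≤ x) :
    ‖e (a * (⌊x⌋₊ : ℝ)) - ∑ h ∈ Icc (-(Z : ℤ)) Z, cf a h * e ((a + h) * x)‖ = ‖er a Z (Int.fract x)‖ := by
  have h1 : e (a * (⌊x⌋₊ : ℝ)) - ∑ h ∈ Icc (-(Z : ℤ)) Z, cf a h * e ((a + h) * x) =
      e (a * x) * er a Z (Int.fract x) := by
    have h2 : (⌊x⌋₊ : ℝ) = (⌊x⌋ : ℝ) := by
      rw [← natCast_floor_eq_intCast_floor hx]
    have h3 : Int.fract x = x - ⌊x⌋ := rfl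
    unfold er
    rw [mul_sub, Finset.mul_sum]
    congr 1
    · rw [← e_add, h2, h3]
      congr 1
      ring
    · refine Finset.sum_congr rfl fun h _ => ?_
      rw [mul_left_comm, ← e_add]
      congr 1
      have h4 : a * x + h * Int.fract x = (a + h) * x + ((-(h * ⌊x⌋) : ℤ) : ℝ) := by
        rw [h3]
        push_cast
        ring
      rw [h4, e_add, e_int, mul_one]
  rw [h1, norm_mul, norm_e, one_mul]

/-- **FL.** -/
theorem fl_fourier : S_FL := by
  refine ⟨2, by norm_num, fun a ha Z hZ => ⟨cf a, cf_le_one a 0, fun h hh => cf_le ha hh, fun A m hA hm => ?_⟩⟩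
  obtain ⟨G, hG⟩ : ∃ G : ℝ → ℝ, G = fun x => ‖er a Z (Int.fract x)‖ ^ 2 := ⟨_, rfl⟩
  have hm0 : (0 : ℝ) < m := by exact_mod_cast hm
  have h1 : ∫ lam in (0 : ℝ)..A,
        ‖e (a * fl lam m) - ∑ h ∈ Icc (-(Z : ℤ)) Z, cf a h * e ((a + h) * (lam * m))‖ ^ 2 =
      ∫ lam in (0 : ℝ)..A, G (lam * m) := by
    refine intervalIntegral.integral_congr fun lam hlam => ?_
    rw [Set.uIcc_of_le (Nat.cast_nonneg A)] at hlam
    simp only [hG]
    rw [← er_eq a Z (mul_nonneg hlam.1 hm0.le)]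
    rfl
  have hper : Function.Periodic G 1 := by
    intro x
    rw [hG]
    simp only
    rw [Int.fract_add_one]
  have hmeas : Measurable G := by
    rw [hG]
    exact ((continuous_er a Z).measurable.comp measurable_fract).norm.pow_const 2
  obtain ⟨K, hK⟩ : ∃ K : ℝ, ∀ x, ‖G x‖ ≤ K := by
    obtain ⟨K, hK⟩ := (isCompact_Icc (a := (0 : ℝ)) (b := 1)).exists_bound_of_continuousOn
      (f := fun x => ‖er a Z x‖ ^ 2) ((continuous_er a Z).norm.pow 2).continuousOn
    refine ⟨K, fun x => ?_⟩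
    rw [hG]
    exact hK _ ⟨Int.fract_nonneg x, (Int.fract_lt_one x).le⟩
  have hint : ∀ t₁ t₂ : ℝ, IntervalIntegrable G volume t₁ t₂ := by
    intro t₁ t₂
    exact (intervalIntegrable_const (c := K)).mono_fun' hmeas.aestronglyMeasurable (Eventually.of_forall hK)
  have h2 : ∫ x in (0 : ℝ)..1, G x = ∫ v in (0 : ℝ)..1, ‖er a Z v‖ ^ 2 := by
    refine intervalIntegral.integral_congr_Ioo_of_le zero_le_one fun x hx => ?_
    rw [hG]
    simp only
    rw [Int.fract_eq_self.2 ⟨hx.1.le, hx.2⟩]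
  rw [h1, intervalIntegral.integral_comp_mul_right G hm0.ne', zero_mul]
  have h3 := hper.intervalIntegral_add_zsmul_eq ((A * m : ℕ) : ℤ) 0 hint
  simp only [zero_add] at h3
  have h4 : (((A * m : ℕ) : ℤ) • (1 : ℝ)) = (A : ℝ) * m := by
    rw [zsmul_eq_mul, mul_one]
    push_cast
    ring
  rw [h4] at h3
  rw [h3, h2, zsmul_eq_mul, smul_eq_mul]
  have h5 := int_er ha hZ
  have hZ0 : (0 : ℝ) < Z := by exact_mod_cast hZ
  have h6 : (m : ℝ)⁻¹ * ((((A * m : ℕ) : ℤ) : ℝ) * ∫ v in (0 : ℝ)..1, ‖er a Z v‖ ^ 2) =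
      A * ∫ v in (0 : ℝ)..1, ‖er a Z v‖ ^ 2 := by
    push_cast
    field_simp
  rw [h6]
  calc (A : ℝ) * ∫ v in (0 : ℝ)..1, ‖er a Z v‖ ^ 2 ≤ A * (2 / Z) := mul_le_mul_of_nonneg_left h5 (Nat.cast_nonneg _)
    _ = 2 * A / Z := by ring

end Pool.Agent.Run7.h416.MW
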