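import Pool.Agent.Run7.h757.MW.Stm2

/-!
# Project MW (helper757), piece UCNT: upper bound for the number of solutions of an inequality (helper416)
-/

set_option autoImplicit false
set_option linter.all false

open Finset MeasureTheory Filter

namespace Pool.Agent.Run7.h416.MW

open Pool.Agent.Run7.h757.MW

theorem card_diam (s : Finset ℕ) (l : ℝ) (hl : 0 ≤ l) (h : ∀ a ∈ s, ∀ b ∈ s, a < b → (b : ℝ) - a ≤ l) :
    (s.card : ℝ) ≤ l + 1 := by
  rcases s.eq_empty_or_nonempty with hs | hs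
  · rw [hs, Finset.card_empty, Nat.cast_zero]
    linarith
  · have h1 : s ⊆ Icc (s.min' hs) (s.min' hs + ⌊l⌋₊) := by
      intro b hb
      rw [Finset.mem_Icc]
      refine ⟨Finset.min'_le _ _ hb, ?_⟩
      rcases (Finset.min'_le s b hb).lt_or_eq with h2 | h2
      · have h3 := h _ (Finset.min'_mem s hs) b hb h2
        have h4 : b - s.min' hs ≤ ⌊l⌋₊ := by
          apply Nat.le_floor
          rw [Nat.cast_sub h2.le]
          exact h3
        omega
      · omega
    have h2 := Finset.card_le_card h1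
    rw [Nat.card_Icc] at h2
    have h3 : (s.card : ℝ) ≤ ⌊l⌋₊ + 1 := by
      have : s.card ≤ ⌊l⌋₊ + 1 := by omega
      exact_mod_cast this
    have h4 := Nat.floor_le hl
    linarith

theorem pow_sub_ge {a b : ℕ} (k : ℕ) (hk : 1 ≤ k) (h : a < b) :
    ((b : ℝ) - a) * (a : ℝ) ^ (k - 1) ≤ (b : ℝ) ^ k - (a : ℝ) ^ k := by
  obtain ⟨k', rfl⟩ : ∃ k', k = k' + 1 := ⟨k - 1, by omega⟩
  rw [Nat.add_sub_cancel, pow_succ, pow_succ, sub_mul]
  have h1 : (a : ℝ) ^ k' ≤ (b : ℝ) ^ k' := pow_le_pow_left₀ (Nat.cast_nonneg _) (by exact_mod_cast h.le) k'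
  have h2 : (b : ℝ) * a ^ k' ≤ b ^ k' * b := by
    rw [mul_comm]
    exact mul_le_mul_of_nonneg_right h1 (Nat.cast_nonneg _)
  linarith [mul_comm (a : ℝ) ((a : ℝ) ^ k')]

theorem ucnt : S_UCNT := by
  classical
  intro u k lam hu hk hlam K B c₁ hc₁
  -- constants
  obtain ⟨Λ, hΛ⟩ : ∃ Λ : ℝ, Λ = ∑ i, lam i := ⟨_, rfl⟩
  have hΛi : ∀ i, lam i ≤ Λ := fun i => by
    rw [hΛ]
    exact Finset.single_le_sum (f := lam) (fun i _ => (hlam i).le) (Finset.mem_univ i)
  have hu0 : (0 : ℝ) < u := by exact_mod_cast hu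
  have hΛ0 : 0 < Λ := lt_of_lt_of_le (hlam ⟨0, by omega⟩) (hΛi _)
  obtain ⟨c, hc⟩ : ∃ c : ℝ, c = min 1 (c₁ / (2 * u * Λ)) := ⟨_, rfl⟩
  have hc0 : 0 < c := by
    rw [hc]
    exact lt_min one_pos (by positivity)
  have hc1 : c ≤ 1 := by rw [hc]; exact min_le_left _ _
  have hck : c ^ k ≤ c₁ / (2 * u * Λ) := by
    have h1 : c ^ k ≤ c := by
      calc c ^ k ≤ c ^ 1 := pow_le_pow_of_le_one hc0.le hc1 hk
        _ = c := pow_one c
    exact h1.trans (by rw [hc]; exact min_le_right _ _)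
  obtain ⟨D, hD⟩ : ∃ D : ℝ, D = ∑ i, 1 / (lam i * c ^ (k - 1)) := ⟨_, rfl⟩
  have hDi : ∀ i, 1 / (lam i * c ^ (k - 1)) ≤ D := fun i => by
    rw [hD]
    exact Finset.single_le_sum (f := fun i => 1 / (lam i * c ^ (k - 1)))
      (fun i _ => by have := hlam i; positivity) (Finset.mem_univ i)
  have hD0 : 0 ≤ D := by
    rw [hD]
    exact Finset.sum_nonneg fun i _ => by have := hlam i; positivity
  refine ⟨u * ((K + 1) ^ (u - 1) * (1 + 3 * D)) + (K + 1) ^ u, by positivity, ?_⟩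
  -- large j
  have E1 : ∀ᶠ j : ℕ in atTop, ((j : ℝ) + 1) ^ B ≤ 2 ^ j := by
    have h1 := (tendsto_pow_const_div_const_pow_of_one_lt B (r := (2 : ℝ)) (by norm_num)).comp (tendsto_add_atTop_nat 1)
    have h2 : ∀ᶠ j : ℕ in atTop, ((j + 1 : ℕ) : ℝ) ^ B / 2 ^ (j + 1) < 1 / 2 := h1.eventually_lt_const (by norm_num)
    filter_upwards [h2] with j hj
    rw [div_lt_iff₀ (by positivity)] at hj
    push_cast at hj
    rw [pow_succ] at hj
    linarith
  have E2 : ∀ᶠ j : ℕ in atTop, 2 / c₁ ≤ (j : ℝ) := tendsto_natCast_atTop_atTop.eventually_ge_atTop _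
  filter_upwards [E1, E2] with j hj1 hj2 y hy
  obtain ⟨N, hN⟩ : ∃ N : ℝ, N = 2 ^ j := ⟨_, rfl⟩
  have hN1 : 1 ≤ N := by rw [hN]; exact one_le_pow₀ (by norm_num)
  have hN0 : 0 < N := by linarith
  obtain ⟨J, hJ⟩ : ∃ J : ℝ, J = ((j : ℝ) + 1) ^ B := ⟨_, rfl⟩
  have hJ0 : 0 < J := by rw [hJ]; positivity
  have hJN : J ≤ N := by rw [hJ, hN]; exact hj1
  have hNk : (2 : ℝ) ^ (j * k) = N ^ k := by rw [hN, pow_mul]
  have hNu : (2 : ℝ) ^ (j * u) = N ^ u := by rw [hN, pow_mul]
  rw [hNk] at hy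
  rw [hNk, hNu, ← hJ]
  obtain ⟨H, hH⟩ : ∃ H : ℕ, H = ⌊N ^ k / J⌋₊ := ⟨_, rfl⟩
  rw [← hH]
  have hHle : (H : ℝ) ≤ N ^ k / J := by rw [hH]; exact Nat.floor_le (by positivity)
  obtain ⟨M, hM⟩ : ∃ M : ℕ, M = K * 2 ^ j := ⟨_, rfl⟩
  rw [← hM]
  have hM1 : ((M : ℝ) + 1) ≤ (K + 1) * N := by
    rw [hM, hN]
    push_cast
    have : (1 : ℝ) ≤ 2 ^ j := one_le_pow₀ (by norm_num)
    linarith
  have hM0 : (0 : ℝ) ≤ (M : ℝ) + 1 := by positivity
  obtain ⟨F, hF⟩ : ∃ F : Finset (Fin u → ℕ), F = (Fintype.piFinset fun _ : Fin u => Icc 0 M).filter fun n =>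
    |((∑ i, fl (lam i) (n i ^ k) : ℕ) : ℤ) - y| ≤ (H : ℤ) := ⟨_, rfl⟩
  rw [← hF]
  -- the trivial bound
  have htriv : (F.card : ℝ) ≤ (K + 1) ^ u * N ^ u := by
    have h1 : F.card ≤ (M + 1) ^ u := by
      rw [hF]
      refine (Finset.card_filter_le _ _).trans ?_
      rw [Fintype.card_piFinset]
      simp
    calc (F.card : ℝ) ≤ ((M : ℝ) + 1) ^ u := by exact_mod_cast h1
      _ ≤ ((K + 1) * N) ^ u := pow_le_pow_left₀ hM0 hM1 u
      _ = _ := mul_pow _ _ _
  rcases Nat.eq_zero_or_pos B with hB | hB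
  · have hJ1 : J = 1 := by rw [hJ, hB, pow_zero]
    rw [hJ1, div_one, add_mul]
    have h1 : 0 ≤ (u * ((K + 1) ^ (u - 1) * (1 + 3 * D)) : ℝ) * N ^ u := by positivity
    linarith
  -- the numbers are large
  have hJc : 2 / c₁ ≤ J := by
    have h1 : ((j : ℝ) + 1) ^ 1 ≤ ((j : ℝ) + 1) ^ B := pow_le_pow_right₀ (by linarith [Nat.cast_nonneg (α := ℝ) j]) hB
    rw [pow_one] at h1
    rw [hJ]
    linarith
  have hHc : (H : ℝ) ≤ c₁ / 2 * N ^ k := by
    refine hHle.trans ?_
    rw [div_le_iff₀ hJ0]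
    have h1 : 1 ≤ c₁ / 2 * J := by
      rw [div_le_iff₀ hc₁] at hJc
      linarith
    have h2 : 0 < N ^ k := by positivity
    nlinarith
  have hlarge : ∀ n ∈ F, ∃ i, c * N ≤ n i := by
    intro n hn
    rw [hF, Finset.mem_filter] at hn
    have h1 : (((∑ i, fl (lam i) (n i ^ k) : ℕ) : ℤ) : ℝ) - y ≥ -(H : ℝ) := by
      have h2 := (abs_le.1 hn.2).1
      exact_mod_cast h2
    by_contra hcon
    push Not at hcon
    have h3 : ∀ i ∈ (Finset.univ : Finset (Fin u)), ((fl (lam i) (n i ^ k) : ℕ) : ℝ) ≤ c₁ / (2 * u) * N ^ k := by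
      intro i _
      have h4 : ((fl (lam i) (n i ^ k) : ℕ) : ℝ) ≤ lam i * ((n i ^ k : ℕ) : ℝ) := by
        unfold fl
        exact Nat.floor_le (by have := hlam i; positivity)
      refine h4.trans ?_
      push_cast
      have h5 : (n i : ℝ) ^ k ≤ (c * N) ^ k := pow_le_pow_left₀ (Nat.cast_nonneg _) (hcon i).le k
      calc lam i * (n i : ℝ) ^ k ≤ Λ * (c * N) ^ k :=
            mul_le_mul (hΛi i) h5 (by positivity) hΛ0.le
        _ = Λ * c ^ k * N ^ k := by rw [mul_pow]; ring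
        _ ≤ Λ * (c₁ / (2 * u * Λ)) * N ^ k := by
            refine mul_le_mul_of_nonneg_right ?_ (by positivity)
            exact mul_le_mul_of_nonneg_left hck hΛ0.le
        _ = _ := by field_simp
    obtain ⟨i₁⟩ : Nonempty (Fin u) := ⟨⟨0, by omega⟩⟩
    have h3' : ∃ i, ((fl (lam i) (n i ^ k) : ℕ) : ℝ) < c₁ / (2 * u) * N ^ k := by
      refine ⟨i₁, ?_⟩
      have h4 : ((fl (lam i₁) (n i₁ ^ k) : ℕ) : ℝ) ≤ lam i₁ * ((n i₁ ^ k : ℕ) : ℝ) := by
        unfold fl
        exact Nat.floor_le (by have := hlam i₁; positivity)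
      refine lt_of_le_of_lt h4 ?_
      push_cast
      have h5 : (n i₁ : ℝ) ^ k < (c * N) ^ k := pow_lt_pow_left₀ (hcon i₁) (Nat.cast_nonneg _) (by omega)
      calc lam i₁ * (n i₁ : ℝ) ^ k < lam i₁ * (c * N) ^ k := mul_lt_mul_of_pos_left h5 (hlam i₁)
        _ ≤ Λ * (c * N) ^ k := mul_le_mul_of_nonneg_right (hΛi i₁) (by positivity)
        _ = Λ * c ^ k * N ^ k := by rw [mul_pow]; ring
        _ ≤ Λ * (c₁ / (2 * u * Λ)) * N ^ k := by
            refine mul_le_mul_of_nonneg_right ?_ (by positivity)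
            exact mul_le_mul_of_nonneg_left hck hΛ0.le
        _ = _ := by field_simp
    obtain ⟨i₂, hi₂⟩ := h3'
    have h6 : ∑ i, ((fl (lam i) (n i ^ k) : ℕ) : ℝ) < ∑ _i : Fin u, c₁ / (2 * u) * N ^ k :=
      Finset.sum_lt_sum h3 ⟨i₂, Finset.mem_univ _, hi₂⟩
    rw [Finset.sum_const, Finset.card_univ, Fintype.card_fin, nsmul_eq_mul] at h6
    have h7 : (u : ℝ) * (c₁ / (2 * u) * N ^ k) = c₁ / 2 * N ^ k := by field_simp
    rw [h7] at h6
    push_cast at h1
    linarith
  -- the fibres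
  obtain ⟨G, hG⟩ : ∃ G : Fin u → Finset (Fin u → ℕ), G = fun i => F.filter fun n => c * N ≤ n i := ⟨_, rfl⟩
  have hGcard : ∀ i, ((G i).card : ℝ) ≤ (K + 1) ^ (u - 1) * (1 + 3 * D) * (N ^ u / J) := by
    intro i
    obtain ⟨l, hl⟩ : ∃ l : ℝ, l = (2 * H + 1) * (1 / (lam i * c ^ (k - 1))) / N ^ (k - 1) := ⟨_, rfl⟩
    have hli := hlam i
    have hl0 : 0 ≤ l := by rw [hl]; positivity
    have himg : ((G i).image fun n => Function.update n i 0).card ≤ (M + 1) ^ (u - 1) := by
      have h1 : (G i).image (fun n => Function.update n i 0) ⊆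
          Fintype.piFinset fun l : Fin u => if l = i then {0} else Icc 0 M := by
        intro m hm
        rw [Finset.mem_image] at hm
        obtain ⟨n, hn, rfl⟩ := hm
        rw [hG] at hn
        simp only [Finset.mem_filter] at hn
        rw [hF, Finset.mem_filter, Fintype.mem_piFinset] at hn
        rw [Fintype.mem_piFinset]
        intro l
        by_cases hli : l = i
        · subst hli
          rw [if_pos rfl, Function.update_self, Finset.mem_singleton]
        · rw [if_neg hli, Function.update_of_ne hli]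
          exact hn.1.1 l
      refine (Finset.card_le_card h1).trans ?_
      rw [Fintype.card_piFinset, ← Finset.mul_prod_erase Finset.univ _ (Finset.mem_univ i), if_pos rfl,
        Finset.card_singleton, one_mul]
      have h2 : ∀ l ∈ Finset.univ.erase i, (if l = i then ({0} : Finset ℕ) else Icc 0 M).card = M + 1 := by
        intro l hl
        rw [if_neg (Finset.ne_of_mem_erase hl), Nat.card_Icc]
        omega
      rw [Finset.prod_congr rfl h2, Finset.prod_const, Finset.card_erase_of_mem (Finset.mem_univ i), Finset.card_univ,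
        Fintype.card_fin]
    have hfib : ∀ a ∈ (G i).image (fun n => Function.update n i 0),
        ((G i).filter fun n => Function.update n i 0 = a).card ≤ ⌊l + 1⌋₊ := by
      intro a _
      apply Nat.le_floor
      have h1 : ((G i).filter fun n => Function.update n i 0 = a).card =
          (((G i).filter fun n => Function.update n i 0 = a).image fun n => n i).card := by
        rw [Finset.card_image_of_injOn]
        intro n hn n' hn' hnn
        have hn1 := (Finset.mem_filter.1 (Finset.mem_coe.1 hn)).2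
        have hn1' := (Finset.mem_filter.1 (Finset.mem_coe.1 hn')).2
        funext l
        by_cases hl : l = i
        · rw [hl]; exact hnn
        · have h2 := congrFun (hn1.trans hn1'.symm) l
          rwa [Function.update_of_ne hl, Function.update_of_ne hl] at h2
      rw [h1]
      refine card_diam _ l hl0 ?_
      intro p hp q hq hpq
      rw [Finset.mem_image] at hp hq
      obtain ⟨n, hn, rfl⟩ := hp
      obtain ⟨n', hn', rfl⟩ := hq
      rw [Finset.mem_filter, hG] at hn hn'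
      simp only [Finset.mem_filter] at hn hn'
      obtain ⟨⟨hnF, hnc⟩, hna⟩ := hn
      obtain ⟨⟨hnF', hnc'⟩, hna'⟩ := hn'
      rw [hF, Finset.mem_filter] at hnF hnF'
      have h2 := (abs_le.1 hnF.2).1
      have h3 := (abs_le.1 hnF'.2).2
      rw [← Finset.add_sum_erase Finset.univ _ (Finset.mem_univ i)] at h2 h3
      have h4 : ∑ l ∈ Finset.univ.erase i, fl (lam l) (n l ^ k) = ∑ l ∈ Finset.univ.erase i, fl (lam l) (n' l ^ k) := by
        refine Finset.sum_congr rfl fun l hl => ?_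
        have h5 := congrFun (hna.trans hna'.symm) l
        rw [Function.update_of_ne (Finset.ne_of_mem_erase hl), Function.update_of_ne (Finset.ne_of_mem_erase hl)] at h5
        rw [h5]
      rw [h4] at h2
      have h5 : ((fl (lam i) (n' i ^ k) : ℕ) : ℝ) ≤ (fl (lam i) (n i ^ k) : ℕ) + 2 * H := by
        have h6 : fl (lam i) (n' i ^ k) ≤ fl (lam i) (n i ^ k) + 2 * H := by
          push_cast at h2 h3
          omega
        exact_mod_cast h6
      have h6 : lam i * ((n' i ^ k : ℕ) : ℝ) < (fl (lam i) (n' i ^ k) : ℕ) + 1 := by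
        unfold fl
        exact Nat.lt_floor_add_one _
      have h7 : ((fl (lam i) (n i ^ k) : ℕ) : ℝ) ≤ lam i * ((n i ^ k : ℕ) : ℝ) := by
        unfold fl
        exact Nat.floor_le (by positivity)
      push_cast at h6 h7
      have h8 := pow_sub_ge k hk hpq
      have h9 : (c * N) ^ (k - 1) ≤ (n i : ℝ) ^ (k - 1) := pow_le_pow_left₀ (by positivity) hnc _
      have h10 : (0 : ℝ) ≤ (n' i : ℝ) - n i := by
        have : (n i : ℝ) < n' i := by exact_mod_cast hpq
        linarith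
      have h11 : ((n' i : ℝ) - n i) * (lam i * (c * N) ^ (k - 1)) ≤ 2 * H + 1 := by
        have h12 : ((n' i : ℝ) - n i) * (c * N) ^ (k - 1) ≤ (n' i : ℝ) ^ k - (n i : ℝ) ^ k :=
          (mul_le_mul_of_nonneg_left h9 h10).trans h8
        calc ((n' i : ℝ) - n i) * (lam i * (c * N) ^ (k - 1)) = lam i * (((n' i : ℝ) - n i) * (c * N) ^ (k - 1)) := by ring
          _ ≤ lam i * ((n' i : ℝ) ^ k - (n i : ℝ) ^ k) := mul_le_mul_of_nonneg_left h12 hli.le
          _ = lam i * (n' i : ℝ) ^ k - lam i * (n i : ℝ) ^ k := by ring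
          _ ≤ 2 * H + 1 := by linarith
      rw [hl]
      rw [← le_div_iff₀ (by positivity)] at h11
      refine h11.trans (le_of_eq ?_)
      rw [mul_pow]
      field_simp
    have hcard := Finset.card_le_mul_card_image (G i) ⌊l + 1⌋₊ hfib
    have h1 : ((G i).card : ℝ) ≤ (l + 1) * ((M : ℝ) + 1) ^ (u - 1) := by
      calc ((G i).card : ℝ) ≤ (⌊l + 1⌋₊ : ℝ) * (((G i).image fun n => Function.update n i 0).card : ℝ) := by
            exact_mod_cast hcard
        _ ≤ (l + 1) * ((M : ℝ) + 1) ^ (u - 1) := by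
            refine mul_le_mul (Nat.floor_le (by linarith)) (by exact_mod_cast himg) (Nat.cast_nonneg _) (by linarith)
    have h2 : l + 1 ≤ (1 + 3 * D) * (N / J) := by
      have h3 : l ≤ (2 * (N ^ k / J) + 1) * D / N ^ (k - 1) := by
        rw [hl]
        refine div_le_div_of_nonneg_right ?_ (by positivity)
        exact mul_le_mul (by linarith) (hDi i) (by positivity) (by positivity)
      have h4 : (2 * (N ^ k / J) + 1) * D / N ^ (k - 1) = 2 * D * (N / J) + D / N ^ (k - 1) := by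
        have h5 : N ^ k = N ^ (k - 1) * N := by
          rw [← pow_succ]
          congr 1
          omega
        rw [h5]
        field_simp
      have h5 : D / N ^ (k - 1) ≤ D := div_le_self hD0 (one_le_pow₀ hN1)
      have h6 : 1 ≤ N / J := by rwa [le_div_iff₀ hJ0, one_mul]
      have h7 : D ≤ D * (N / J) := le_mul_of_one_le_right hD0 h6
      rw [h4] at h3
      linarith
    have h3 : ((M : ℝ) + 1) ^ (u - 1) ≤ ((K + 1) * N) ^ (u - 1) := pow_le_pow_left₀ hM0 hM1 _
    have h4 : N ^ u = N ^ (u - 1) * N := by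
      rw [← pow_succ]
      congr 1
      omega
    calc ((G i).card : ℝ) ≤ (l + 1) * ((M : ℝ) + 1) ^ (u - 1) := h1
      _ ≤ ((1 + 3 * D) * (N / J)) * ((K + 1) * N) ^ (u - 1) :=
          mul_le_mul h2 h3 (by positivity) (by positivity)
      _ = _ := by rw [mul_pow, h4]; ring
  have hFG : F ⊆ Finset.univ.biUnion G := by
    intro n hn
    obtain ⟨i, hi⟩ := hlarge n hn
    rw [Finset.mem_biUnion]
    refine ⟨i, Finset.mem_univ i, ?_⟩
    rw [hG]
    exact Finset.mem_filter.2 ⟨hn, hi⟩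
  have hfin : (F.card : ℝ) ≤ u * ((K + 1) ^ (u - 1) * (1 + 3 * D) * (N ^ u / J)) := by
    have h1 : F.card ≤ ∑ i, (G i).card := (Finset.card_le_card hFG).trans Finset.card_biUnion_le
    calc (F.card : ℝ) ≤ ∑ i, ((G i).card : ℝ) := by exact_mod_cast h1
      _ ≤ ∑ _i : Fin u, (K + 1) ^ (u - 1) * (1 + 3 * D) * (N ^ u / J) := Finset.sum_le_sum fun i _ => hGcard i
      _ = _ := by rw [Finset.sum_const, Finset.card_univ, Fintype.card_fin, nsmul_eq_mul]
  refine hfin.trans ?_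
  have h1 : (0 : ℝ) ≤ (K + 1) ^ u * (N ^ u / J) := by positivity
  have h2 : (u * ((K + 1) ^ (u - 1) * (1 + 3 * D)) + (K + 1) ^ u : ℝ) * N ^ u / J =
      u * ((K + 1) ^ (u - 1) * (1 + 3 * D) * (N ^ u / J)) + (K + 1) ^ u * (N ^ u / J) := by ring
  rw [h2]
  linarith

end Pool.Agent.Run7.h416.MW
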