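import Pool.Agent.Run7.h757.MW.Stm2
import Pool.Agent.Run7.h757.MW.MT
import Pool.Agent.Run7.h416.MW.UCNT

/-!
# Project MW (helper757), piece MTF: mean square of `T` over the full range (helper416)
-/

set_option autoImplicit false
set_option linter.all false

open Finset MeasureTheory Filter

namespace Pool.Agent.Run7.h416.MW

open Pool.Agent.Run7.h757.MW

/-- the blocks -/
def bk (N : ℕ) : ℕ → Finset ℕ
  | 0 => Icc 0 1
  | l + 1 => Ioc (2 ^ l) (min (2 ^ (l + 1)) N)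

theorem T_union (f : ℕ → ℕ) {B B' : Finset ℕ} (h : Disjoint B B') (lam a : ℝ) :
    T f (B ∪ B') lam a = T f B lam a + T f B' lam a := by
  unfold T
  exact Finset.sum_union h

theorem T_blocks (f : ℕ → ℕ) {N : ℕ} (hN : 1 ≤ N) (lam a : ℝ) (m : ℕ) :
    T f (Icc 0 (min (2 ^ m) N)) lam a = ∑ j ∈ range (m + 1), T f (bk N j) lam a := by
  induction m with
  | zero =>
    rw [Finset.sum_range_one, pow_zero, min_eq_left hN]
    rfl
  | succ m ih =>
    rw [Finset.sum_range_succ, ← ih]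
    have h1 : Icc 0 (min (2 ^ (m + 1)) N) = Icc 0 (min (2 ^ m) N) ∪ bk N (m + 1) := by
      show Icc 0 (min (2 ^ (m + 1)) N) = Icc 0 (min (2 ^ m) N) ∪ Ioc (2 ^ m) (min (2 ^ (m + 1)) N)
      ext n
      simp only [Finset.mem_union, Finset.mem_Icc, Finset.mem_Ioc]
      have : 2 ^ (m + 1) = 2 ^ m + 2 ^ m := by rw [pow_succ]; ring
      omega
    have h2 : Disjoint (Icc 0 (min (2 ^ m) N)) (bk N (m + 1)) := by
      show Disjoint (Icc 0 (min (2 ^ m) N)) (Ioc (2 ^ m) (min (2 ^ (m + 1)) N))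
      rw [Finset.disjoint_left]
      intro n hn hn'
      simp only [Finset.mem_Icc, Finset.mem_Ioc] at hn hn'
      omega
    rw [h1, T_union f h2]

theorem sqT_meas (f : ℕ → ℕ) (B : Finset ℕ) (a : ℝ) : Measurable fun lam => ‖T f B lam a‖ ^ 2 :=
  (measurable_T f B a).norm.pow_const 2

theorem sqT_le (f : ℕ → ℕ) (B : Finset ℕ) (a lam : ℝ) : ‖T f B lam a‖ ^ 2 ≤ (B.card : ℝ) ^ 2 :=
  pow_le_pow_left₀ (norm_nonneg _) (norm_T_le f B lam a) 2

theorem sqT_ii (f : ℕ → ℕ) (B : Finset ℕ) (a A : ℝ) :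
    IntervalIntegrable (fun lam => ‖T f B lam a‖ ^ 2) volume 0 A :=
  ii_of_bdd (sqT_meas f B a) (C := (B.card : ℝ) ^ 2) (fun x => by
    rw [abs_of_nonneg (by positivity)]
    exact sqT_le f B a x) A

theorem sqT_int (f : ℕ → ℕ) (B : Finset ℕ) (a : ℝ) {A : ℝ} (hA : 0 ≤ A) :
    ∫ lam in (0 : ℝ)..A, ‖T f B lam a‖ ^ 2 ≤ A * (B.card : ℝ) ^ 2 := by
  have h := intervalIntegral.integral_mono_on hA (sqT_ii f B a A)
    (intervalIntegrable_const (c := (B.card : ℝ) ^ 2)) fun x _ => sqT_le f B a x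
  refine h.trans (le_of_eq ?_)
  rw [intervalIntegral.integral_const, smul_eq_mul, sub_zero]

theorem rp1 {q : ℝ} (hq : 0 ≤ q) {k : ℕ} (hk : 2 ≤ k) : (q ^ k) ^ ((2 : ℝ) / k) = q ^ 2 := by
  have hk0 : (k : ℝ) ≠ 0 := by positivity
  rw [← Real.rpow_natCast, ← Real.rpow_mul hq, mul_div_cancel₀ _ hk0]
  exact_mod_cast Real.rpow_natCast q 2

theorem rp2 {a : ℝ} (ha : a ≠ 0) (k : ℕ) : |a| ^ (-(2 : ℝ) / k) = (1 / |a|) ^ ((2 : ℝ) / k) := by
  rw [neg_div, Real.rpow_neg (abs_nonneg _), one_div, Real.inv_rpow (abs_nonneg _)]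

theorem case1 {a q : ℝ} (ha : a ≠ 0) (hq : 0 ≤ q) {k : ℕ} (hk : 2 ≤ k) (h : q ^ k ≤ 1 / |a|) :
    q ^ 2 ≤ |a| ^ (-(2 : ℝ) / k) := by
  rw [rp2 ha, ← rp1 hq hk]
  exact Real.rpow_le_rpow (by positivity) h (by positivity)

theorem case2 {a q : ℝ} (ha : a ≠ 0) (hq : 0 < q) {k : ℕ} (hk : 2 ≤ k) (h : 1 / |a| ≤ q ^ k) :
    q * (1 / (|a| * q ^ (k - 1))) ≤ |a| ^ (-(2 : ℝ) / k) := by
  have ha0 : 0 < |a| := abs_pos.2 ha
  have hk2 : (2 : ℝ) ≤ k := by exact_mod_cast hk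
  have hk0 : (0 : ℝ) < k := by linarith
  set Y := 1 / |a| with hY
  have hY0 : 0 < Y := by positivity
  set s := q ^ k with hs
  have hs0 : 0 < s := by positivity
  have h1 : q * (1 / (|a| * q ^ (k - 1))) = Y * (s ^ ((2 : ℝ) / k) / s) := by
    rw [rp1 hq.le hk]
    have h2 : s = q ^ (k - 1) * q := by
      rw [hs, ← pow_succ]
      congr 1
      omega
    rw [h2, hY]
    field_simp
  rw [h1, rp2 ha, ← hY, ← Real.rpow_sub_one hs0.ne']
  have h2 : s ^ ((2 : ℝ) / k - 1) ≤ Y ^ ((2 : ℝ) / k - 1) := by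
    refine Real.rpow_le_rpow_of_nonpos hY0 h ?_
    rw [sub_nonpos, div_le_one hk0]
    exact hk2
  calc Y * s ^ ((2 : ℝ) / k - 1) ≤ Y * Y ^ ((2 : ℝ) / k - 1) := mul_le_mul_of_nonneg_left h2 hY0.le
    _ = Y ^ ((2 : ℝ) / k) := by
      rw [Real.rpow_sub_one hY0.ne']
      field_simp

theorem mtf (hMT : S_MT) : S_MTF := by
  obtain ⟨C1, hC1, hMT⟩ := hMT
  refine ⟨4 * (4 + C1), by positivity, fun k N A a hk hN hA ha0 ha => ?_⟩
  have hk2 : (2 : ℝ) ≤ k := by exact_mod_cast hk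
  have hN' : (1 : ℝ) ≤ N := by exact_mod_cast hN
  have hA' : (1 : ℝ) ≤ A := by exact_mod_cast hA
  have haa : 0 < |a| := abs_pos.2 ha0
  have hlN : 0 ≤ Real.log N := Real.log_nonneg hN'
  obtain ⟨ℓ, hℓ⟩ : ∃ ℓ : ℝ, ℓ = 1 + Real.log N := ⟨_, rfl⟩
  have hℓ1 : 1 ≤ ℓ := by rw [hℓ]; linarith
  obtain ⟨R, hR⟩ : ∃ R : ℝ, R = |a| ^ (-(2 : ℝ) / k) := ⟨_, rfl⟩
  have hR0 : 0 ≤ R := by rw [hR]; positivity
  rw [← hℓ, ← hR]
  set f : ℕ → ℕ := fun n => n ^ k with hf
  obtain ⟨L, hL⟩ : ∃ L : ℕ, L = Nat.log 2 N := ⟨_, rfl⟩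
  have hL1 : 2 ^ L ≤ N := by rw [hL]; exact Nat.pow_log_le_self 2 (by omega)
  have hL2 : N < 2 ^ (L + 1) := by rw [hL]; exact Nat.lt_pow_succ_log_self (by norm_num) N
  have hdec : ∀ lam, T f (Icc 0 N) lam a = ∑ j ∈ range (L + 1 + 1), T f (bk N j) lam a := by
    intro lam
    have h := T_blocks f hN lam a (L + 1)
    rwa [min_eq_right hL2.le] at h
  have hLlog : ((L + 1 + 1 : ℕ) : ℝ) ≤ 2 * ℓ := by
    have h1 : Real.log ((2 : ℝ) ^ L) ≤ Real.log N := Real.log_le_log (by positivity) (by exact_mod_cast hL1)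
    rw [Real.log_pow] at h1
    have h2 : (1 / 2 : ℝ) ≤ Real.log 2 := by linarith [Real.log_two_gt_d9]
    have h3 : (L : ℝ) * (1 / 2) ≤ L * Real.log 2 := mul_le_mul_of_nonneg_left h2 (Nat.cast_nonneg _)
    push_cast
    rw [hℓ]
    linarith
  -- one block
  have hblock : ∀ j ∈ range (L + 1 + 1), ∫ lam in (0 : ℝ)..A, ‖T f (bk N j) lam a‖ ^ 2 ≤
      (4 + C1) * A * ℓ ^ 3 * (N + R) := by
    intro j hj
    rw [Finset.mem_range] at hj
    have hℓ3 : 1 ≤ ℓ ^ 3 := one_le_pow₀ hℓ1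
    have hNR : 1 ≤ N + R := by linarith
    rcases j with _ | l
    · have h1 := sqT_int f (bk N 0) a (A := (A : ℝ)) (by linarith)
      have h2 : (bk N 0).card = 2 := by
        show (Icc 0 1).card = 2
        rfl
      rw [h2] at h1
      have h3 : (A : ℝ) * ((2 : ℕ) : ℝ) ^ 2 = 4 * A * 1 * 1 := by push_cast; ring
      rw [h3] at h1
      refine h1.trans ?_
      gcongr
      linarith
    · obtain ⟨q, hq⟩ : ∃ q : ℕ, q = 2 ^ l := ⟨_, rfl⟩
      have hq1 : 1 ≤ q := by rw [hq]; exact Nat.one_le_two_pow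
      have hq1' : (1 : ℝ) ≤ q := by exact_mod_cast hq1
      have hqN : q ≤ N := by
        rw [hq]
        exact (Nat.pow_le_pow_right (by norm_num) (by omega)).trans hL1
      have hqN' : (q : ℝ) ≤ N := by exact_mod_cast hqN
      have hB : bk N (l + 1) ⊆ Ioc q (q + q) := by
        show Ioc (2 ^ l) (min (2 ^ (l + 1)) N) ⊆ Ioc q (q + q)
        intro n hn
        rw [Finset.mem_Ioc] at hn ⊢
        have : 2 ^ (l + 1) = 2 ^ l + 2 ^ l := by rw [pow_succ]; ring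
        omega
      have hcard : ((bk N (l + 1)).card : ℝ) ≤ q := by
        have h1 := Finset.card_le_card hB
        rw [Nat.card_Ioc] at h1
        exact_mod_cast (by omega : (bk N (l + 1)).card ≤ q)
      rcases le_or_gt ((q : ℝ) ^ k) (1 / |a|) with h | h
      · have h1 := sqT_int f (bk N (l + 1)) a (A := (A : ℝ)) (by linarith)
        have h2 : ((bk N (l + 1)).card : ℝ) ^ 2 ≤ R := by
          refine (pow_le_pow_left₀ (Nat.cast_nonneg _) hcard 2).trans ?_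
          rw [hR]
          exact case1 ha0 (by positivity) hk h
        calc _ ≤ (A : ℝ) * ((bk N (l + 1)).card : ℝ) ^ 2 := h1
          _ ≤ A * R := mul_le_mul_of_nonneg_left h2 (by linarith)
          _ = 1 * A * 1 * (0 + R) := by ring
          _ ≤ (4 + C1) * A * ℓ ^ 3 * (N + R) := by
            gcongr
            · linarith
            · linarith
      · have hP : (1 : ℝ) ≤ (q : ℝ) ^ (k - 1) := one_le_pow₀ hq1'
        have hSp : Sp f (bk N (l + 1)) ((q : ℝ) ^ (k - 1)) := by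
          intro n hn m hm hmn
          have hm1 := (Finset.mem_Ioc.1 (hB hm)).1
          have h1 := pow_sub_ge k (by omega) hmn
          have h2 : (q : ℝ) ^ (k - 1) ≤ (m : ℝ) ^ (k - 1) :=
            pow_le_pow_left₀ (by positivity) (by exact_mod_cast hm1.le) _
          have h3 : (0 : ℝ) ≤ (n : ℝ) - m := by
            have : (m : ℝ) < n := by exact_mod_cast hmn
            linarith
          rw [hf]
          push_cast
          calc (q : ℝ) ^ (k - 1) * ((n : ℝ) - m) ≤ (m : ℝ) ^ (k - 1) * ((n : ℝ) - m) :=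
                mul_le_mul_of_nonneg_right h2 h3
            _ = ((n : ℝ) - m) * (m : ℝ) ^ (k - 1) := mul_comm _ _
            _ ≤ _ := h1
        have hf1 : ∀ n ∈ bk N (l + 1), 1 ≤ f n := by
          intro n hn
          have hn1 := (Finset.mem_Ioc.1 (hB hn)).1
          exact Nat.one_le_pow _ _ (by omega)
        have h1 := hMT f (bk N (l + 1)) ((q : ℝ) ^ (k - 1)) q q A a hq1 hP hA hB hSp hf1 ha0 ha
        refine h1.trans ?_
        have hlq : 0 ≤ Real.log q := Real.log_nonneg hq1'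
        have hlq2 : 1 + Real.log q ≤ ℓ := by
          rw [hℓ]
          have := Real.log_le_log (by linarith : (0 : ℝ) < q) hqN'
          linarith
        have h2 : (1 + Real.log q) ^ 3 ≤ ℓ ^ 3 := pow_le_pow_left₀ (by linarith) hlq2 3
        have h3 : (q : ℝ) * (1 + 1 / (|a| * (q : ℝ) ^ (k - 1))) ≤ N + R := by
          rw [mul_add, mul_one, hR]
          exact add_le_add hqN' (case2 ha0 (by linarith) hk h.le)
        calc C1 * A * q * (1 + Real.log q) ^ 3 * (1 + 1 / (|a| * (q : ℝ) ^ (k - 1)))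
            = C1 * A * (1 + Real.log q) ^ 3 * (q * (1 + 1 / (|a| * (q : ℝ) ^ (k - 1)))) := by ring
          _ ≤ (4 + C1) * A * ℓ ^ 3 * (N + R) := by
            gcongr
            linarith
  -- all blocks
  have h1 : ∫ lam in (0 : ℝ)..A, ‖T f (Icc 0 N) lam a‖ ^ 2 ≤
      ∫ lam in (0 : ℝ)..A, ((L + 1 + 1 : ℕ) : ℝ) * ∑ j ∈ range (L + 1 + 1), ‖T f (bk N j) lam a‖ ^ 2 := by
    refine intervalIntegral.integral_mono_on (by linarith) (sqT_ii f _ a A) ?_ fun lam _ => ?_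
    · refine IntervalIntegrable.const_mul ?_ _
      have h2 := IntervalIntegrable.sum (μ := volume) (a := 0) (b := A) (range (L + 1 + 1))
        (f := fun j lam => ‖T f (bk N j) lam a‖ ^ 2) fun j _ => sqT_ii f _ a A
      have h3 : (fun lam : ℝ => ∑ j ∈ range (L + 1 + 1), ‖T f (bk N j) lam a‖ ^ 2) =
          ∑ j ∈ range (L + 1 + 1), fun lam => ‖T f (bk N j) lam a‖ ^ 2 := by
        funext x
        simp
      rw [h3]
      exact h2
    · rw [hdec lam]
      have h2 : ‖∑ j ∈ range (L + 1 + 1), T f (bk N j) lam a‖ ≤ ∑ j ∈ range (L + 1 + 1), ‖T f (bk N j) lam a‖ :=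
        norm_sum_le _ _
      have h3 := sq_sum_le_card_mul_sum_sq (s := range (L + 1 + 1)) (f := fun j => ‖T f (bk N j) lam a‖)
      rw [Finset.card_range] at h3
      exact (pow_le_pow_left₀ (norm_nonneg _) h2 2).trans h3
  rw [intervalIntegral.integral_const_mul, intervalIntegral.integral_finset_sum fun j _ => sqT_ii f _ a A] at h1
  have h2 := Finset.sum_le_sum hblock
  rw [Finset.sum_const, Finset.card_range, nsmul_eq_mul] at h2
  have hX : 0 ≤ (4 + C1) * A * ℓ ^ 3 * (N + R) := by positivity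
  calc _ ≤ _ := h1
    _ ≤ ((L + 1 + 1 : ℕ) : ℝ) * (((L + 1 + 1 : ℕ) : ℝ) * ((4 + C1) * A * ℓ ^ 3 * (N + R))) :=
        mul_le_mul_of_nonneg_left h2 (Nat.cast_nonneg _)
    _ ≤ (2 * ℓ) * ((2 * ℓ) * ((4 + C1) * A * ℓ ^ 3 * (N + R))) := by
        gcongr
    _ = _ := by ring

end Pool.Agent.Run7.h416.MW
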